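import Mathlib

/-! Super edge-magic graphs and generalized prisms. -/

namespace Pool.Agent.Lib.MP_837d34_co

/-- `G` (with `p` vertices and `q` edges) is super edge-magic: there is a bijection `f` from
vertices and edges onto `{1, ..., p + q}` with `f (V) = {1, ..., p}` and with
`f u + f (u v) + f v` the same for all edges `u v`. -/
def IsSEM {V : Type} (G : SimpleGraph V) : Prop :=
  ∃ (f : V ⊕ G.edgeSet → ℕ) (k : ℕ),
    Set.BijOn f Set.univ (Set.Icc 1 (Nat.card V + Nat.card G.edgeSet)) ∧
    (Set.range fun v => f (Sum.inl v)) = Set.Icc 1 (Nat.card V) ∧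
    ∀ (u v : V) (h : G.Adj u v),
      f (Sum.inl u) + f (Sum.inr ⟨s(u, v), h⟩) + f (Sum.inl v) = k

/-- the generalized prism, the Cartesian product of the cycle on `m` vertices and the path on `n`
vertices -/
def prism (m n : ℕ) : SimpleGraph (Fin m × Fin n) :=
  (SimpleGraph.cycleGraph m).boxProd (SimpleGraph.pathGraph n)

end Pool.Agent.Lib.MP_837d34_co
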