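import Pool.Agent.Lib.MP_837d34_co.H88Lift

/-! Explicit super edge-magic labelings of small even prisms. -/

namespace Pool.Agent.Lib.MP_837d34_co

theorem base_6_3 : IsSEM (prism 6 3) :=
  Check.isSEM (by norm_num) (a := 3) (g := tab
    [[2, 5, 11, 12, 3, 1],
      [6, 16, 15, 17, 8, 4],
      [0, 14, 13, 7, 10, 9]]) (by decide +kernel)

theorem base_8_3 : IsSEM (prism 8 3) :=
  Check.isSEM (by norm_num) (a := 4) (g := tab
    [[15, 2, 6, 4, 1, 5, 21, 13],
      [18, 14, 9, 10, 3, 22, 19, 17],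
      [11, 7, 0, 12, 8, 16, 23, 20]]) (by decide +kernel)

theorem base_10_3 : IsSEM (prism 10 3) :=
  Check.isSEM (by norm_num) (a := 5) (g := tab
    [[29, 25, 9, 4, 2, 3, 7, 19, 17, 22],
      [21, 28, 24, 11, 16, 5, 15, 27, 13, 10],
      [8, 20, 23, 14, 0, 12, 26, 18, 6, 1]]) (by decide +kernel)

theorem base_12_3 : IsSEM (prism 12 3) :=
  Check.isSEM (by norm_num) (a := 6) (g := tab
    [[18, 26, 31, 34, 21, 12, 1, 7, 9, 2, 4, 8],
      [35, 28, 17, 30, 19, 10, 13, 11, 16, 5, 32, 24],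
      [25, 33, 29, 22, 20, 0, 15, 23, 27, 14, 3, 6]]) (by decide +kernel)

theorem base_14_3 : IsSEM (prism 14 3) :=
  Check.isSEM (by norm_num) (a := 7) (g := tab
    [[6, 12, 19, 20, 1, 15, 40, 36, 30, 26, 10, 5, 3, 4],
      [16, 17, 24, 41, 33, 35, 22, 23, 28, 0, 27, 37, 11, 8],
      [14, 18, 29, 34, 39, 32, 38, 31, 21, 25, 13, 7, 2, 9]]) (by decide +kernel)

theorem base_6_4 : IsSEM (prism 6 4) :=
  Check.isSEM (by norm_num) (a := 3) (g := tab
    [[19, 9, 1, 4, 0, 3],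
      [23, 16, 10, 2, 7, 12],
      [21, 15, 14, 6, 11, 22],
      [20, 17, 13, 8, 5, 18]]) (by decide +kernel)

theorem base_8_4 : IsSEM (prism 8 4) :=
  Check.isSEM (by norm_num) (a := 4) (g := tab
    [[19, 26, 16, 9, 20, 23, 12, 11],
      [29, 8, 5, 17, 24, 30, 27, 22],
      [18, 0, 7, 2, 3, 25, 31, 28],
      [14, 6, 4, 13, 1, 15, 21, 10]]) (by decide +kernel)

theorem base_10_4 : IsSEM (prism 10 4) :=
  Check.isSEM (by norm_num) (a := 5) (g := tab
    [[21, 19, 6, 4, 9, 28, 36, 38, 29, 27],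
      [11, 8, 14, 7, 0, 17, 30, 31, 39, 33],
      [32, 18, 15, 23, 12, 22, 35, 24, 34, 20],
      [10, 13, 1, 5, 3, 2, 16, 25, 37, 26]]) (by decide +kernel)

theorem base_6_5 : IsSEM (prism 6 5) :=
  Check.isSEM (by norm_num) (a := 3) (g := tab
    [[0, 4, 5, 7, 9, 10],
      [3, 2, 12, 1, 6, 15],
      [8, 18, 20, 22, 21, 14],
      [23, 27, 29, 26, 25, 16],
      [11, 13, 24, 28, 19, 17]]) (by decide +kernel)

theorem base_8_5 : IsSEM (prism 8 5) :=
  Check.isSEM (by norm_num) (a := 4) (g := tab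
    [[39, 25, 34, 18, 20, 30, 24, 36],
      [31, 22, 15, 2, 12, 28, 33, 38],
      [37, 26, 19, 10, 21, 23, 32, 35],
      [29, 13, 17, 11, 5, 4, 14, 27],
      [6, 0, 7, 8, 3, 1, 9, 16]]) (by decide +kernel)

theorem base_6_6 : IsSEM (prism 6 6) :=
  Check.isSEM (by norm_num) (a := 3) (g := tab
    [[5, 1, 2, 8, 11, 0],
      [9, 7, 10, 16, 14, 4],
      [12, 15, 18, 25, 6, 3],
      [17, 21, 26, 32, 28, 20],
      [22, 24, 29, 34, 31, 30],
      [13, 27, 35, 33, 23, 19]]) (by decide +kernel)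

theorem base_8_6 : IsSEM (prism 8 6) :=
  Check.isSEM (by norm_num) (a := 4) (g := tab
    [[13, 8, 2, 6, 3, 1, 5, 14],
      [25, 22, 18, 16, 9, 4, 12, 23],
      [20, 11, 0, 7, 19, 10, 32, 26],
      [47, 41, 15, 17, 24, 29, 46, 44],
      [40, 36, 21, 33, 27, 37, 43, 42],
      [39, 45, 38, 35, 28, 34, 31, 30]]) (by decide +kernel)

theorem base_6_7 : IsSEM (prism 6 7) :=
  Check.isSEM (by norm_num) (a := 3) (g := tab
    [[7, 9, 5, 6, 2, 18],
      [11, 10, 0, 3, 4, 13],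
      [16, 22, 12, 1, 25, 17],
      [31, 27, 23, 14, 32, 28],
      [36, 39, 33, 8, 20, 34],
      [37, 41, 38, 15, 24, 40],
      [26, 35, 30, 21, 19, 29]]) (by decide +kernel)

end Pool.Agent.Lib.MP_837d34_co
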