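import Pool.Agent.Lib.MP_837d34_co.Defs

/-! Odd cyclic covers of super edge-magic prisms. -/

namespace Pool.Agent.Lib.MP_837d34_co

open SimpleGraph

/-- vertex labels with distinct consecutive edge sums -/
def Crit {V : Type} (G : SimpleGraph V) : Prop :=
  ∃ (g : V → ℕ) (a : ℕ), Function.Injective g ∧ (∀ v, g v < Nat.card V) ∧
    (∀ u v, G.Adj u v → a ≤ g u + g v ∧ g u + g v < a + Nat.card G.edgeSet) ∧
    ∀ u v u' v', G.Adj u v → G.Adj u' v' → g u + g v = g u' + g v' → s(u, v) = s(u', v')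

theorem IsSEM.crit {V : Type} {G : SimpleGraph V} (h : IsSEM G) : Crit G := by
  obtain ⟨f, k, h1, h2, h3⟩ := h
  have inj : Function.Injective f := Set.injOn_univ.1 h1.injOn
  have a1 : ∀ v, 1 ≤ f (Sum.inl v) ∧ f (Sum.inl v) ≤ Nat.card V := fun v => by
    have : f (Sum.inl v) ∈ Set.Icc 1 (Nat.card V) := h2 ▸ Set.mem_range_self v
    exact this
  have a2 : ∀ e, Nat.card V < f (Sum.inr e) ∧ f (Sum.inr e) ≤ Nat.card V + Nat.card G.edgeSet :=
    fun e => by
      have b := h1.mapsTo (Set.mem_univ (Sum.inr e))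
      refine ⟨?_, b.2⟩
      by_contra c
      have : f (Sum.inr e) ∈ Set.range fun v => f (Sum.inl v) := h2 ▸ ⟨b.1, not_lt.1 c⟩
      obtain ⟨v, hv⟩ := this
      exact Sum.inl_ne_inr (inj hv)
  refine ⟨fun v => f (Sum.inl v) - 1, k - 2 - Nat.card V - Nat.card G.edgeSet, fun u v h => ?_,
    fun v => ?_, fun u v h => ?_, fun u v u' v' h h' e => ?_⟩
  · have := a1 u
    have := a1 v
    exact Sum.inl_injective (inj (by simp only at h; omega))
  · have := a1 v
    simp only
    omega
  · have := a1 u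
    have := a1 v
    have := a2 ⟨s(u, v), h⟩
    have := h3 u v h
    simp only
    omega
  · have := a1 u
    have := a1 v
    have := a1 u'
    have := a1 v'
    have := h3 u v h
    have := h3 u' v' h'
    have : f (Sum.inr ⟨s(u, v), h⟩) = f (Sum.inr ⟨s(u', v'), h'⟩) := by simp only at e; omega
    exact congrArg Subtype.val (Sum.inr_injective (inj this))

theorem range_eq_Icc {X : Type} [Finite X] {f : X → ℕ} (hf : Function.Injective f) {N : ℕ}
    (hN : Nat.card X = N) (h : ∀ x, f x ∈ Set.Icc 1 N) : Set.range f = Set.Icc 1 N := by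
  refine Set.eq_of_subset_of_ncard_le (Set.range_subset_iff.2 h) ?_ (Set.finite_Icc _ _)
  rw [← Set.image_univ, Set.ncard_image_of_injective _ hf, Set.ncard_univ, hN]
  simp

theorem Crit.isSEM {V : Type} [Finite V] {G : SimpleGraph V} (h : Crit G) : IsSEM G := by
  obtain ⟨g, a, h1, h2, h3, h4⟩ := h
  let S : Sym2 V → ℕ := Sym2.lift ⟨fun u v => g u + g v, fun u v => add_comm _ _⟩
  have b1 : ∀ e : G.edgeSet, a ≤ S e.1 ∧ S e.1 < a + Nat.card G.edgeSet := by
    rintro ⟨e, he⟩
    induction e using Sym2.ind with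
    | h u v => exact h3 u v he
  have b2 : ∀ e e' : G.edgeSet, S e.1 = S e'.1 → e = e' := by
    rintro ⟨e, he⟩ ⟨e', he'⟩
    induction e using Sym2.ind with
    | h u v =>
      induction e' using Sym2.ind with
      | h u' v' => exact fun c => Subtype.ext (h4 u v u' v' he he' c)
  let f : V ⊕ G.edgeSet → ℕ :=
    Sum.elim (fun v => g v + 1) fun e => Nat.card V + Nat.card G.edgeSet + a - S e.1
  have inj : Function.Injective f := by
    rintro (u | e) (v | e') c <;> simp only [f, Sum.elim_inl, Sum.elim_inr] at c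
    · exact congrArg _ (h1 (by omega))
    · have := h2 u
      have := b1 e'
      omega
    · have := h2 v
      have := b1 e
      omega
    · have := b1 e
      have := b1 e'
      exact congrArg _ (b2 e e' (by omega))
  have mem : ∀ x, f x ∈ Set.Icc 1 (Nat.card V + Nat.card G.edgeSet) := by
    rintro (u | e) <;> simp only [f, Sum.elim_inl, Sum.elim_inr, Set.mem_Icc]
    · have := h2 u
      omega
    · have := b1 e
      omega
  refine ⟨f, Nat.card V + Nat.card G.edgeSet + a + 2, ⟨fun x _ => mem x, inj.injOn, ?_⟩,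
    range_eq_Icc (inj.comp Sum.inl_injective) rfl fun v => ?_, fun u v h => ?_⟩
  · rw [Set.SurjOn, Set.image_univ, range_eq_Icc inj Nat.card_sum mem]
  · exact ⟨Nat.le_add_left _ _, h2 v⟩
  · have := h3 u v h
    simp only [f, S, Sum.elim_inl, Sum.elim_inr, Sym2.lift_mk]
    omega

theorem val_sum (j : ℕ) (z : ZMod (2 * j + 1)) :
    j ≤ z.val + (z + ((j + 1 : ℕ) : ZMod (2 * j + 1))).val ∧
      z.val + (z + ((j + 1 : ℕ) : ZMod (2 * j + 1))).val ≤ 3 * j := by
  have h := ZMod.val_lt z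
  have e : (z + ((j + 1 : ℕ) : ZMod (2 * j + 1))).val = (z.val + (j + 1)) % (2 * j + 1) := by
    rw [← ZMod.val_natCast, Nat.cast_add z.val, ZMod.natCast_zmod_val]
  rw [e]
  rcases lt_or_ge (z.val + (j + 1)) (2 * j + 1) with c | c
  · rw [Nat.mod_eq_of_lt c]
    omega
  · rw [Nat.mod_eq_sub_mod c, Nat.mod_eq_of_lt (by omega)]
    omega

theorem two_half (j : ℕ) : 2 * ((j + 1 : ℕ) : ZMod (2 * j + 1)) = 1 := by
  have := ZMod.natCast_self (2 * j + 1)
  push_cast at this ⊢
  linear_combination this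

theorem digits {k a b r s : ℕ} (hr : r < k) (hs : s < k) (h : k * a + r = k * b + s) :
    a = b ∧ r = s := by
  have h0 : 0 < k := by omega
  have e1 := congrArg (· / k) h
  have e2 := congrArg (· % k) h
  simp only [Nat.mul_add_div h0, Nat.div_eq_of_lt hr, Nat.div_eq_of_lt hs, Nat.mul_add_mod,
    Nat.mod_eq_of_lt hr, Nat.mod_eq_of_lt hs] at e1 e2
  exact ⟨e1, e2⟩

/-- odd cyclic covers whose voltages are plus or minus one half -/
theorem Crit.lift {V W : Type} {G : SimpleGraph V} {H : SimpleGraph W} (h : Crit G) (j : ℕ)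
    (φ : W → V) (σ : W → ZMod (2 * j + 1)) (d : V → V → ZMod (2 * j + 1))
    (hi : ∀ x y, φ x = φ y → σ x = σ y → x = y)
    (hV : Nat.card W = (2 * j + 1) * Nat.card V)
    (hE : Nat.card H.edgeSet = (2 * j + 1) * Nat.card G.edgeSet)
    (ha : ∀ x y, H.Adj x y → G.Adj (φ x) (φ y) ∧ σ y = σ x + d (φ x) (φ y) ∧
      (d (φ x) (φ y) = (j + 1 : ℕ) ∨ d (φ x) (φ y) = -(j + 1 : ℕ))) : Crit H := by
  obtain ⟨g, a, h1, h2, h3, h4⟩ := h
  have b : ∀ x y, H.Adj x y → j ≤ (σ x).val + (σ y).val ∧ (σ x).val + (σ y).val ≤ 3 * j := by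
    intro x y h
    obtain ⟨-, e, c | c⟩ := ha x y h
    · rw [e, c]
      exact val_sum j _
    · rw [show σ x = σ y + (j + 1 : ℕ) by rw [e, c]; ring, add_comm]
      exact val_sum j _
  have key : ∀ x y x' y', H.Adj x y → H.Adj x' y' → φ x = φ x' → φ y = φ y' →
      (σ x).val + (σ y).val = (σ x').val + (σ y').val → x = x' ∧ y = y' := by
    intro x y x' y' h h' e1 e2 e
    have c := congrArg (Nat.cast : ℕ → ZMod (2 * j + 1)) e
    simp only [Nat.cast_add, ZMod.natCast_zmod_val] at c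
    have c1 := (ha x y h).2.1
    have c2 := (ha x' y' h').2.1
    rw [← e1, ← e2] at c2
    have c3 : σ x = σ x' := by
      linear_combination ((j + 1 : ℕ) : ZMod (2 * j + 1)) * (c - c1 + c2) -
        (σ x - σ x') * two_half j
    exact ⟨hi _ _ e1 c3, hi _ _ e2 (by rw [c1, c2, c3])⟩
  refine ⟨fun x => (2 * j + 1) * g (φ x) + (σ x).val, (2 * j + 1) * a + j, fun x y e => ?_,
    fun x => ?_, fun x y h => ?_, fun x y x' y' h h' e => ?_⟩
  · obtain ⟨e1, e2⟩ := digits (ZMod.val_lt _) (ZMod.val_lt _) e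
    exact hi _ _ (h1 e1) (ZMod.val_injective _ e2)
  · have := ZMod.val_lt (σ x)
    have := Nat.mul_le_mul_left (2 * j + 1) (Nat.succ_le_of_lt (h2 (φ x)))
    rw [hV]
    simp only [Nat.succ_eq_add_one, mul_add] at this ⊢
    omega
  · obtain ⟨c1, c2⟩ := h3 _ _ (ha x y h).1
    have c3 := Nat.mul_le_mul_left (2 * j + 1) c1
    have c4 := Nat.mul_le_mul_left (2 * j + 1) (Nat.succ_le_of_lt c2)
    have := b x y h
    rw [hE]
    simp only [Nat.succ_eq_add_one, mul_add] at c3 c4 ⊢
    omega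
  · have b1 := b x y h
    have b2 := b x' y' h'
    obtain ⟨e1, e2⟩ := digits (k := 2 * j + 1) (a := g (φ x) + g (φ y)) (b := g (φ x') + g (φ y'))
      (r := (σ x).val + (σ y).val - j) (s := (σ x').val + (σ y').val - j) (by omega) (by omega)
      (by simp only [mul_add] at e ⊢; omega)
    rcases Sym2.eq_iff.1 (h4 _ _ _ _ (ha x y h).1 (ha x' y' h').1 e1) with ⟨c1, c2⟩ | ⟨c1, c2⟩
    · obtain ⟨rfl, rfl⟩ := key x y x' y' h h' c1 c2 (by omega)
      rfl
    · obtain ⟨rfl, rfl⟩ := key x y y' x' h h'.symm c1 c2 (by omega)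
      exact Sym2.eq_swap

theorem cyc_adj {m : ℕ} (hm : 2 ≤ m) {u v : Fin m} :
    (cycleGraph m).Adj u v ↔ (u.val + 1) % m = v.val ∨ (v.val + 1) % m = u.val := by
  have key : ∀ u v : Fin m, (u - v).val = 1 ↔ (v.val + 1) % m = u.val := by
    intro u v
    have h1 := u.2
    have h2 := v.2
    have e1 : (v.val + 1) % m = if v.val + 1 < m then v.val + 1 else 0 := by
      split_ifs with c
      · exact Nat.mod_eq_of_lt c
      · rw [show v.val + 1 = m by omega, Nat.mod_self]
    have e2 : (u - v).val = if v.val ≤ u.val then u.val - v.val else m - v.val + u.val := by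
      rw [Fin.sub_def]
      split_ifs with c
      · simp only
        rw [Nat.mod_eq_sub_mod (by omega), Nat.mod_eq_of_lt (by omega)]
        omega
      · exact Nat.mod_eq_of_lt (by omega)
    rw [e1, e2]
    split_ifs <;> omega
  rw [cycleGraph_adj', key, key, or_comm]

/-- oriented edges of the prism -/
def Step {m n : ℕ} (x y : Fin m × Fin n) : Prop :=
  ((x.1.val + 1) % m = y.1.val ∧ x.2 = y.2) ∨ (x.1 = y.1 ∧ x.2.val + 1 = y.2.val)

theorem prism_adj {m n : ℕ} (hm : 2 ≤ m) {x y : Fin m × Fin n} :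
    (prism m n).Adj x y ↔ Step x y ∨ Step y x := by
  rw [prism, boxProd_adj, cyc_adj hm, pathGraph_adj, Step, Step, eq_comm (a := y.2),
    eq_comm (a := y.1)]
  tauto

theorem card_path (n : ℕ) : Nat.card (pathGraph n).edgeSet = n - 1 := by
  cases n with
  | zero =>
    have : IsEmpty (pathGraph 0).edgeSet := ⟨fun e => by
      obtain ⟨e, -⟩ := e
      induction e using Sym2.ind with
      | h u v => exact u.elim0⟩
    simp
  | succ n =>
    have : (pathGraph (n + 1)).edgeSet =
        Set.range fun i : Fin n => s(i.castSucc, i.succ) := by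
      ext e
      induction e using Sym2.ind with
      | h u v =>
        have h1 := u.2
        have h2 := v.2
        simp only [mem_edgeSet, pathGraph_adj, Set.mem_range, Sym2.eq_iff, Fin.ext_iff,
          Fin.val_castSucc, Fin.val_succ]
        constructor
        · rintro (h | h)
          · exact ⟨⟨u.val, by omega⟩, Or.inl ⟨rfl, h⟩⟩
          · exact ⟨⟨v.val, by omega⟩, Or.inr ⟨rfl, h⟩⟩
        · rintro ⟨i, h⟩
          omega
    rw [this, Nat.card_range_of_injective, Nat.card_fin, Nat.add_sub_cancel]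
    intro i i' h
    simp only [Sym2.eq_iff, Fin.ext_iff, Fin.val_castSucc, Fin.val_succ] at h
    exact Fin.ext (by omega)

theorem card_prism {m : ℕ} (hm : 3 ≤ m) (n : ℕ) :
    Nat.card (prism m n).edgeSet = m * (n + (n - 1)) := by
  classical
  obtain ⟨m, rfl⟩ : ∃ l, m = l + 3 := ⟨m - 3, by omega⟩
  have e1 := ((cycleGraph (m + 3)).boxProd (pathGraph n)).sum_degrees_eq_twice_card_edges
  have e2 := (pathGraph n).sum_degrees_eq_twice_card_edges
  rw [edgeFinset_card, ← Nat.card_eq_fintype_card] at e1 e2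
  rw [card_path] at e2
  simp only [degree_boxProd, cycleGraph_degree_three_le, Fintype.sum_prod_type,
    Finset.sum_add_distrib, e2, Finset.sum_const, Finset.card_univ, Fintype.card_prod,
    Fintype.card_fin, smul_eq_mul] at e1
  rw [prism]
  linarith

/-- the height of a closed walk with holonomy two -/
def walk (r : ℕ) : ℤ := if r = 0 then 0 else if r % 2 = 1 then 1 else 2

theorem walk_succ (r : ℕ) : walk (r + 1) = walk r + 1 ∨ walk (r + 1) = walk r - 1 := by
  rw [walk, walk, if_neg (Nat.succ_ne_zero r)]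
  split_ifs <;> omega

theorem walk_last {r m : ℕ} (hm : m % 2 = 0) (h : r + 1 = m) : walk r = 1 := by
  unfold walk
  split_ifs <;> omega

theorem crit_lift {m n : ℕ} (hm : 4 ≤ m) (he : m % 2 = 0) (j : ℕ) (h : Crit (prism m n)) :
    Crit (prism (m * (2 * j + 1)) n) := by
  have m0 : 0 < m := by omega
  have mk : m ≤ m * (2 * j + 1) := Nat.le_mul_of_pos_right _ (by omega)
  have hq : ∀ c : Fin (m * (2 * j + 1)), c.val / m < 2 * j + 1 := fun c =>
    Nat.div_lt_of_lt_mul c.2
  set κ : ZMod (2 * j + 1) := ((j + 1 : ℕ) : ZMod (2 * j + 1)) with hκ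
  have k2 : 2 * κ = 1 := two_half j
  let φ : Fin (m * (2 * j + 1)) × Fin n → Fin m × Fin n :=
    fun x => (⟨x.1.val % m, Nat.mod_lt _ m0⟩, x.2)
  let A : Fin m × Fin n → ZMod (2 * j + 1) := fun u => κ * (walk u.1.val + (u.2.val : ℕ))
  let B : Fin m × Fin n → Fin m × Fin n → ZMod (2 * j + 1) :=
    fun u v => if u.1.val + 1 = m ∧ v.1.val = 0 then 1 else 0
  let σ : Fin (m * (2 * j + 1)) × Fin n → ZMod (2 * j + 1) :=
    fun x => ((x.1.val / m : ℕ) : ZMod (2 * j + 1)) + A (φ x)
  let d : Fin m × Fin n → Fin m × Fin n → ZMod (2 * j + 1) :=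
    fun u v => A v - A u + B u v - B v u
  have step : ∀ x y, Step x y → Step (φ x) (φ y) ∧ σ y = σ x + d (φ x) (φ y) ∧
      (d (φ x) (φ y) = κ ∨ d (φ x) (φ y) = -κ) := by
    rintro ⟨c, t⟩ ⟨c', t'⟩ (⟨h1, h2⟩ | ⟨h1, h2⟩)
    · simp only at h1 h2
      subst h2
      have r1 := Nat.mod_lt c.val m0
      have r2 := Nat.div_add_mod c.val m
      have r3 : (c.val % m + 1) % m = c'.val % m := by
        rw [← h1, Nat.mod_mod_of_dvd _ (Dvd.intro _ rfl), Nat.mod_add_mod]
      refine ⟨Or.inl ⟨r3, rfl⟩, ?_⟩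
      rcases lt_or_ge (c.val % m + 1) m with l | l
      · rw [Nat.mod_eq_of_lt l] at r3
        have r4 : c.val + 1 < m * (2 * j + 1) := by
          have := Nat.mul_le_mul_left m (Nat.succ_le_of_lt (hq c))
          rw [Nat.succ_eq_add_one, mul_add] at this
          omega
        rw [Nat.mod_eq_of_lt r4] at h1
        have r5 : c'.val / m = c.val / m := by
          rw [← h1, ← r2, add_assoc, Nat.mul_add_div m0, Nat.div_eq_of_lt l, r2, add_zero]
        have b1 : B (φ (c, t)) (φ (c', t)) = 0 := if_neg (by simp only [φ]; omega)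
        have b2 : B (φ (c', t)) (φ (c, t)) = 0 := if_neg (by simp only [φ]; omega)
        refine ⟨by simp only [σ, d, b1, b2, r5]; ring, ?_⟩
        simp only [d, b1, b2]
        simp only [A, φ, ← r3]
        refine (walk_succ (c.val % m)).imp (fun e => ?_) fun e => ?_ <;> rw [e] <;> push_cast <;>
          ring
      · have r4 : c.val % m + 1 = m := by omega
        rw [r4, Nat.mod_self] at r3
        have r5 : c'.val / m = (c.val / m + 1) % (2 * j + 1) := by
          rw [← h1, show c.val + 1 = m * (c.val / m + 1) by rw [mul_add m (c.val / m)]; omega,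
            Nat.mul_mod_mul_left, Nat.mul_div_cancel_left _ m0]
        have b1 : B (φ (c, t)) (φ (c', t)) = 1 := if_pos (by simp only [φ]; omega)
        have b2 : B (φ (c', t)) (φ (c, t)) = 0 := if_neg (by simp only [φ]; omega)
        refine ⟨by simp only [σ, d, b1, b2, r5, ZMod.natCast_mod]; push_cast; ring, Or.inl ?_⟩
        have w0 : walk 0 = 0 := if_pos rfl
        have w1 : walk (c.val % m) = 1 := walk_last he r4
        simp only [d, b1, b2]
        simp only [A, φ, ← r3, w0, w1]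
        push_cast
        linear_combination -k2
    · simp only at h1 h2
      subst h1
      have b1 : ∀ t t', B (φ (c, t)) (φ (c, t')) = 0 := fun _ _ =>
        if_neg (by simp only [φ]; omega)
      refine ⟨Or.inr ⟨rfl, h2⟩, by simp only [σ, d, b1]; ring, Or.inl ?_⟩
      simp only [d, b1]
      simp only [A, φ, ← h2]
      push_cast
      ring
  refine h.lift j φ σ d ?_ ?_ ?_ fun x y hxy => ?_
  · rintro ⟨c, t⟩ ⟨c', t'⟩ e1 e2
    simp only [σ, e1, add_left_inj] at e2
    rw [ZMod.natCast_eq_natCast_iff', Nat.mod_eq_of_lt (hq c), Nat.mod_eq_of_lt (hq c')] at e2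
    simp only [φ, Prod.mk.injEq, Fin.mk.injEq] at e1
    refine Prod.ext (Fin.ext ?_) e1.2
    simp only
    rw [← Nat.div_add_mod c.val m, ← Nat.div_add_mod c'.val m, e2, e1.1]
  · simp only [Nat.card_prod, Nat.card_fin]
    ring
  · rw [card_prism (by omega), card_prism (by omega)]
    ring
  · rw [prism_adj (by omega)] at hxy ⊢
    rcases hxy with s | s
    · exact ⟨Or.inl (step x y s).1, (step x y s).2⟩
    · obtain ⟨s1, s2, s3⟩ := step y x s
      have e : d (φ x) (φ y) = -d (φ y) (φ x) := by simp only [d]; ring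
      refine ⟨Or.inr s1, by rw [e, s2]; ring, ?_⟩
      rw [e]
      rcases s3 with s3 | s3
      · exact Or.inr (by rw [s3])
      · exact Or.inl (by rw [s3, neg_neg])

theorem isSEM_lift {m n k : ℕ} (hm : 4 ≤ m) (he : Even m) (hk : Odd k) (h : IsSEM (prism m n)) :
    IsSEM (prism (m * k) n) := by
  obtain ⟨j, rfl⟩ := hk
  exact (crit_lift hm (Nat.even_iff.1 he) j h.crit).isSEM

/-- the edge sum of a table of labels at an oriented edge -/
def esum (m : ℕ) (g : ℕ → ℕ → ℕ) (c t b : ℕ) : ℕ :=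
  g c t + if b = 0 then g ((c + 1) % m) t else g c (t + 1)

/-- the label at a vertex is not repeated -/
def InjV (m n : ℕ) (g : ℕ → ℕ → ℕ) (c t : ℕ) : Prop :=
  ∀ c' < m, ∀ t' < n, g c t = g c' t' → c = c' ∧ t = t'

instance (m n : ℕ) (g : ℕ → ℕ → ℕ) (c t : ℕ) : Decidable (InjV m n g c t) := by
  unfold InjV
  infer_instance

/-- the sum at an edge is not repeated -/
def InjE (m n : ℕ) (g : ℕ → ℕ → ℕ) (c t b : ℕ) : Prop :=
  ∀ b' < 2, ∀ c' < m, ∀ t' < n - b', esum m g c t b = esum m g c' t' b' →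
    b = b' ∧ c = c' ∧ t = t'

instance (m n : ℕ) (g : ℕ → ℕ → ℕ) (c t b : ℕ) : Decidable (InjE m n g c t b) :=
  @Nat.decidableBallLT _ _ fun _ _ => @Nat.decidableBallLT _ _ fun _ _ =>
    @Nat.decidableBallLT _ _ fun _ _ => inferInstance

/-- a finite check that a table of labels has distinct consecutive edge sums -/
def Check (m n : ℕ) (g : ℕ → ℕ → ℕ) (a : ℕ) : Prop :=
  (∀ c < m, ∀ t < n, g c t < m * n ∧ InjV m n g c t) ∧
    ∀ b < 2, ∀ c < m, ∀ t < n - b,
      (a ≤ esum m g c t b ∧ esum m g c t b < a + m * (n + (n - 1))) ∧ InjE m n g c t b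

instance (m n : ℕ) (g : ℕ → ℕ → ℕ) (a : ℕ) : Decidable (Check m n g a) := by
  unfold Check
  infer_instance

theorem Check.isSEM {m n : ℕ} (hm : 3 ≤ m) {g : ℕ → ℕ → ℕ} {a : ℕ} (h : Check m n g a) :
    IsSEM (prism m n) := by
  obtain ⟨h1, h2⟩ := h
  have st : ∀ x y : Fin m × Fin n, Step x y → ∃ b < 2, x.2.val < n - b ∧
      g x.1.val x.2.val + g y.1.val y.2.val = esum m g x.1.val x.2.val b ∧
      y.1.val = (if b = 0 then (x.1.val + 1) % m else x.1.val) ∧ y.2.val = x.2.val + b := by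
    rintro x y (⟨s1, s2⟩ | ⟨s1, s2⟩)
    · exact ⟨0, two_pos, x.2.2, by simp [esum, s1, s2], by simp [s1], by simp [s2]⟩
    · have := y.2.2
      exact ⟨1, one_lt_two, by omega, by simp [esum, s1, s2], by simp [s1], s2.symm⟩
  have inj : ∀ x y x' y' : Fin m × Fin n, Step x y → Step x' y' →
      g x.1.val x.2.val + g y.1.val y.2.val = g x'.1.val x'.2.val + g y'.1.val y'.2.val →
      s(x, y) = s(x', y') := by
    intro x y x' y' s s' e
    obtain ⟨b, b1, b2, b3, b4, b5⟩ := st x y s
    obtain ⟨b', c1, c2, c3, c4, c5⟩ := st x' y' s'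
    obtain ⟨e1, e2, e3⟩ := (h2 b b1 _ x.1.2 _ b2).2 b' c1 _ x'.1.2 _ c2 (by rw [← b3, ← c3, e])
    rw [show x = x' from Prod.ext (Fin.ext e2) (Fin.ext e3), show y = y' from
      Prod.ext (Fin.ext (by rw [b4, c4, e1, e2])) (Fin.ext (by rw [b5, c5, e1, e3]))]
  refine Crit.isSEM ⟨fun x => g x.1.val x.2.val, a, fun x y e => ?_, fun x => ?_,
    fun x y s => ?_, fun x y x' y' s s' e => ?_⟩
  · have := (h1 _ x.1.2 _ x.2.2).2 _ y.1.2 _ y.2.2 e
    exact Prod.ext (Fin.ext this.1) (Fin.ext this.2)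
  · simpa using (h1 _ x.1.2 _ x.2.2).1
  · rw [card_prism hm]
    rcases (prism_adj (by omega)).1 s with s | s
    · obtain ⟨b, b1, b2, b3, -⟩ := st x y s
      simpa only [b3] using (h2 b b1 _ x.1.2 _ b2).1
    · obtain ⟨b, b1, b2, b3, -⟩ := st y x s
      simpa only [add_comm (g x.1.val x.2.val), b3] using (h2 b b1 _ y.1.2 _ b2).1
  · simp only at e
    rcases (prism_adj (by omega)).1 s with s | s <;>
      rcases (prism_adj (by omega)).1 s' with s' | s'
    · exact inj _ _ _ _ s s' e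
    · exact (inj _ _ _ _ s s' (by omega)).trans Sym2.eq_swap
    · exact Sym2.eq_swap.trans (inj _ _ _ _ s s' (by omega))
    · exact Sym2.eq_swap.trans ((inj _ _ _ _ s s' (by omega)).trans Sym2.eq_swap)

/-- a table read from a list of rows -/
def tab (L : List (List ℕ)) (c t : ℕ) : ℕ := (L.getD t []).getD c 0

end Pool.Agent.Lib.MP_837d34_co

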